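import Pool.Agent.W786.Ls.Stm

set_option autoImplicit false

namespace Pool.Agent.W191.LS
open Pool.Agent.W786.Ls
open MeasureTheory Set Complex
open scoped ENNReal NNReal

/-- `κ(k) = k/2 + λ` -/
noncomputable def kap {m : ℕ} (lam : Fin m → ℝ) (k : Fin m → ℤ) : Fin m → ℝ :=
  fun j => (k j : ℝ) / 2 + lam j

theorem tau_pos (t : ℝ) : 0 < tau t := Real.sqrt_pos.2 (by positivity)

theorem tau_sq (t : ℝ) : tau t ^ 2 = 1 + 4 * t ^ 2 := Real.sq_sqrt (by positivity)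

theorem tau_ge (t : ℝ) : 2 * |t| < tau t := by
  refine Real.lt_sqrt_of_sq_lt ?_
  rw [mul_pow, sq_abs]; linarith

theorem tau_one (t : ℝ) : 1 ≤ tau t := by
  refine Real.le_sqrt_of_sq_le ?_
  nlinarith [sq_nonneg t]

theorem tau_le (t : ℝ) (ht : 1 ≤ |t|) : tau t ≤ 3 * |t| := by
  have h : tau t ^ 2 ≤ (3 * |t|) ^ 2 := by
    rw [tau_sq, mul_pow, sq_abs]
    have : 1 ≤ t ^ 2 := by rw [← sq_abs]; nlinarith
    linarith
  exact le_of_sq_le_sq h (by positivity)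

theorem norm_beta {m : ℕ} (t : ℝ) (lam ξ : Fin m → ℝ) (k : Fin m → ℤ) :
    ‖beta t lam ξ k‖ = ww t lam k := by
  unfold beta ww
  rw [norm_prod]
  refine Finset.prod_congr rfl fun j _ => ?_
  rw [Complex.norm_exp]
  congr 1
  rw [Complex.add_re, Complex.neg_re, Complex.ofReal_re, Complex.re_mul_ofReal]
  have : (2 * (Real.pi : ℂ) * I).re = 0 := by simp
  rw [this]
  ring

theorem enorm_beta {m : ℕ} (t : ℝ) (lam ξ : Fin m → ℝ) (k : Fin m → ℤ) :
    ‖beta t lam ξ k‖ₑ = ENNReal.ofReal (ww t lam k) := by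
  rw [← norm_beta t lam ξ k, ofReal_norm]

theorem ww_pos {m : ℕ} (t : ℝ) (lam : Fin m → ℝ) (k : Fin m → ℤ) : 0 < ww t lam k :=
  Finset.prod_pos fun j _ => Real.exp_pos _

/-- the index of the shell -/
noncomputable def idx {m : ℕ} (t : ℝ) (lam : Fin m → ℝ) (k : Fin m → ℤ) : ℕ :=
  ⌊‖kap lam k‖ / tau t⌋₊

theorem ww_le {m : ℕ} (t : ℝ) (lam : Fin m → ℝ) (k : Fin m → ℤ) :
    ww t lam k ≤ Real.exp (-(idx t lam k : ℝ)) := by
  unfold ww
  rw [← Real.exp_sum]
  refine Real.exp_le_exp.2 ?_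
  have hτ := tau_pos t
  have h0 : (idx t lam k : ℝ) ≤ ‖kap lam k‖ / tau t := Nat.floor_le (by positivity)
  rcases Nat.eq_zero_or_pos (idx t lam k) with hz | hpos
  · rw [hz]
    simp only [Nat.cast_zero, neg_zero]
    refine Finset.sum_nonpos fun j _ => ?_
    rw [div_nonpos_iff]
    right
    constructor
    · have := Real.pi_pos
      nlinarith [sq_nonneg ((k j : ℝ) / 2 + lam j), mul_nonneg this.le (sq_nonneg ((k j : ℝ) / 2 + lam j))]
    · positivity
  · have h1 : (1 : ℝ) ≤ idx t lam k := by exact_mod_cast hpos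
    have hkn : 0 < ‖kap lam k‖ := by
      by_contra hneg
      have : ‖kap lam k‖ = 0 := le_antisymm (not_lt.1 hneg) (norm_nonneg _)
      rw [this, zero_div] at h0
      linarith
    have hm : Nonempty (Fin m) := by
      by_contra hne
      rw [not_nonempty_iff] at hne
      have : kap lam k = 0 := Subsingleton.elim _ _
      rw [this, norm_zero] at hkn
      exact lt_irrefl _ hkn
    obtain ⟨j, hj⟩ : ∃ j, ‖kap lam k‖ = ‖kap lam k j‖ := by
      by_contra hne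
      push Not at hne
      have hlt : ∀ j, ‖kap lam k j‖ < ‖kap lam k‖ := fun j =>
        lt_of_le_of_ne (norm_le_pi_norm _ j) (hne j).symm
      have := (pi_norm_lt_iff hkn).2 hlt
      exact lt_irrefl _ this
    have h2 : -Real.pi * ((k j : ℝ) / 2 + lam j) ^ 2 / (2 * tau t ^ 2)
        ≤ -(idx t lam k : ℝ) := by
      have e : ((k j : ℝ) / 2 + lam j) ^ 2 = ‖kap lam k‖ ^ 2 := by
        rw [hj, Real.norm_eq_abs, sq_abs]; rfl
      rw [e, div_le_iff₀ (by positivity)]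
      have h3 : (idx t lam k : ℝ) * tau t ≤ ‖kap lam k‖ := by
        rwa [le_div_iff₀ hτ] at h0
      have h4 : ((idx t lam k : ℝ) * tau t) ^ 2 ≤ ‖kap lam k‖ ^ 2 :=
        pow_le_pow_left₀ (by positivity) h3 2
      have h5 : (idx t lam k : ℝ) * tau t ^ 2 ≤ ((idx t lam k : ℝ) * tau t) ^ 2 := by
        rw [mul_pow]
        have : (idx t lam k : ℝ) ≤ (idx t lam k : ℝ) ^ 2 := by nlinarith
        gcongr
      have h6 := Real.pi_gt_three
      nlinarith [sq_nonneg ‖kap lam k‖]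
    calc ∑ j, -Real.pi * ((k j : ℝ) / 2 + lam j) ^ 2 / (2 * tau t ^ 2)
        ≤ -Real.pi * ((k j : ℝ) / 2 + lam j) ^ 2 / (2 * tau t ^ 2) := by
          have hneg : ∀ i ∈ Finset.univ.erase j,
              -Real.pi * ((k i : ℝ) / 2 + lam i) ^ 2 / (2 * tau t ^ 2) ≤ 0 := by
            intro i _
            rw [div_nonpos_iff]
            right
            constructor
            · have := Real.pi_pos
              nlinarith [mul_nonneg this.le (sq_nonneg ((k i : ℝ) / 2 + lam i))]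
            · positivity
          rw [← Finset.add_sum_erase _ _ (Finset.mem_univ j)]
          have := Finset.sum_nonpos hneg
          linarith
      _ ≤ _ := h2

/-- the shells -/
noncomputable def shell {m : ℕ} (t : ℝ) (lam : Fin m → ℝ) (S : Finset (Fin m → ℤ)) (i : ℕ) :
    Finset (Fin m → ℤ) := S.filter fun k => idx t lam k = i

theorem trig_shells {m : ℕ} (t : ℝ) (lam : Fin m → ℝ) (S : Finset (Fin m → ℤ))
    (c : (Fin m → ℤ) → ℂ) (n : ℕ) (hn : ∀ k ∈ S, idx t lam k < n) :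
    trig S c = ∑ i ∈ Finset.range n, trig (shell t lam S i) c := by
  funext v
  rw [Finset.sum_apply]
  unfold trig shell
  rw [Finset.sum_fiberwise_of_maps_to fun k hk => Finset.mem_range.2 (hn k hk)]

theorem trig_cont {m : ℕ} (S : Finset (Fin m → ℤ)) (c : (Fin m → ℤ) → ℂ) :
    Continuous (trig S c) := by
  unfold trig ek
  fun_prop

theorem shell_diam {m : ℕ} (t : ℝ) (lam : Fin m → ℝ) (S : Finset (Fin m → ℤ)) (i : ℕ) :
    ∀ k ∈ shell t lam S i, ∀ l ∈ shell t lam S i, ‖k - l‖ ≤ 4 * (i + 1) * tau t := by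
  intro k hk l hl
  have hτ := tau_pos t
  have key : ∀ k ∈ shell t lam S i, ‖kap lam k‖ < (i + 1) * tau t := by
    intro k hk
    have h1 : idx t lam k = i := (Finset.mem_filter.1 hk).2
    have h2 : ‖kap lam k‖ / tau t < (idx t lam k : ℝ) + 1 := Nat.lt_floor_add_one _
    rw [h1, div_lt_iff₀ hτ] at h2
    exact h2
  rw [pi_norm_le_iff_of_nonneg (by positivity)]
  intro j
  have h1 := (norm_le_pi_norm (kap lam k) j).trans_lt (key k hk)
  have h2 := (norm_le_pi_norm (kap lam l) j).trans_lt (key l hl)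
  rw [Real.norm_eq_abs, abs_lt] at h1 h2
  unfold kap at h1 h2
  rw [Pi.sub_apply, Int.norm_eq_abs, abs_le]
  push_cast
  constructor <;> linarith

/-- the weighted `ℓ²` sum -/
noncomputable def WS {m : ℕ} (t : ℝ) (lam : Fin m → ℝ) (S : Finset (Fin m → ℤ))
    (c : (Fin m → ℤ) → ℂ) : ℝ≥0∞ := ∑ k ∈ S, ‖c k‖ₑ ^ 2 * ENNReal.ofReal (ww t lam k)

theorem l2_shell {m : ℕ} (t : ℝ) (lam ξ : Fin m → ℝ) (S : Finset (Fin m → ℤ))
    (c : (Fin m → ℤ) → ℂ) (i : ℕ) :
    l2 (shell t lam S i) (fun k => c k * beta t lam ξ k)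
      ≤ ENNReal.ofReal (Real.exp (-(1 / 2 * i))) * WS t lam S c ^ (1 / 2 : ℝ) := by
  unfold l2
  have h1 : ∑ k ∈ shell t lam S i, ‖c k * beta t lam ξ k‖ₑ ^ 2
      ≤ ENNReal.ofReal (Real.exp (-(i : ℝ))) * WS t lam S c := by
    unfold WS
    rw [Finset.mul_sum]
    refine (Finset.sum_le_sum fun k hk => ?_).trans
      (Finset.sum_le_sum_of_subset (Finset.filter_subset _ _))
    have hi : idx t lam k = i := (Finset.mem_filter.1 hk).2
    rw [enorm_mul, mul_pow, enorm_beta]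
    have h2 : ENNReal.ofReal (ww t lam k) ^ 2
        ≤ ENNReal.ofReal (Real.exp (-(i : ℝ))) * ENNReal.ofReal (ww t lam k) := by
      rw [sq]
      gcongr
      rw [← hi]
      exact ww_le t lam k
    calc ‖c k‖ₑ ^ 2 * ENNReal.ofReal (ww t lam k) ^ 2
        ≤ ‖c k‖ₑ ^ 2 * (ENNReal.ofReal (Real.exp (-(i : ℝ))) * ENNReal.ofReal (ww t lam k)) := by
          gcongr
      _ = _ := by ring
  calc (∑ k ∈ shell t lam S i, ‖c k * beta t lam ξ k‖ₑ ^ 2) ^ (1 / 2 : ℝ)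
      ≤ (ENNReal.ofReal (Real.exp (-(i : ℝ))) * WS t lam S c) ^ (1 / 2 : ℝ) :=
        ENNReal.rpow_le_rpow h1 (by norm_num)
    _ = _ := by
        rw [ENNReal.mul_rpow_of_nonneg _ _ (by norm_num : (0:ℝ) ≤ 1 / 2),
          ENNReal.ofReal_rpow_of_pos (Real.exp_pos _), ← Real.exp_mul]
        congr 3
        ring

theorem shell_est {m : ℕ} (q δ : ℝ) (hq : 2 ≤ q) (hδ : 0 ≤ δ) (hδ1 : δ ≤ 1)
    (Λ : Set (Fin m → ℤ)) (K : ℝ≥0) (hL : Lam Λ q δ K) (t : ℝ) (ht : 1 ≤ |t|)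
    (S : Finset (Fin m → ℤ)) (c : (Fin m → ℤ) → ℂ) (hS : ∀ k ∈ S, k ∈ Λ)
    (lam ξ : Fin m → ℝ) (i : ℕ) :
    (∫⁻ v in CB m, ‖trig (shell t lam S i) (fun k => c k * beta t lam ξ k) v‖ₑ ^ q) ^ (1 / q)
      ≤ ENNReal.ofReal (12 * ((i + 1) * Real.exp (-(1 / 2 * i)))) *
        (K * ENNReal.ofReal (|t| ^ δ) * WS t lam S c ^ (1 / 2 : ℝ)) := by
  have hτ := tau_pos t
  have hN : (1 : ℝ) ≤ 4 * (i + 1) * tau t := by
    have := tau_one t
    have h2 : (0 : ℝ) ≤ i := Nat.cast_nonneg i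
    nlinarith
  have h1 := hL (4 * (i + 1) * tau t) (shell t lam S i) (fun k => c k * beta t lam ξ k) hN
    (fun k hk => hS k (Finset.mem_filter.1 hk).1) (shell_diam t lam S i)
  have hq0 : 0 < q := by linarith
  have h2 := ENNReal.rpow_le_rpow h1 (by positivity : 0 ≤ 1 / q)
  rw [← ENNReal.rpow_mul, mul_one_div_cancel hq0.ne', ENNReal.rpow_one] at h2
  refine h2.trans ?_
  have h3 : (4 * (i + 1) * tau t) ^ δ ≤ 12 * (i + 1) * |t| ^ δ := by
    have hi : (0 : ℝ) ≤ i := Nat.cast_nonneg i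
    rw [Real.mul_rpow (by positivity) hτ.le]
    have ha : (4 * ((i : ℝ) + 1)) ^ δ ≤ 4 * (i + 1) := by
      have := Real.rpow_le_rpow_of_exponent_le (by linarith : (1 : ℝ) ≤ 4 * ((i : ℝ) + 1)) hδ1
      rwa [Real.rpow_one] at this
    have hb : tau t ^ δ ≤ 3 * |t| ^ δ := by
      calc tau t ^ δ ≤ (3 * |t|) ^ δ := Real.rpow_le_rpow hτ.le (tau_le t ht) hδ
        _ = 3 ^ δ * |t| ^ δ := Real.mul_rpow (by norm_num) (abs_nonneg _)
        _ ≤ 3 * |t| ^ δ := by
            have := Real.rpow_le_rpow_of_exponent_le (by norm_num : (1 : ℝ) ≤ 3) hδ1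
            rw [Real.rpow_one] at this
            gcongr
    calc (4 * ((i : ℝ) + 1)) ^ δ * tau t ^ δ ≤ (4 * (i + 1)) * (3 * |t| ^ δ) := by
          gcongr
      _ = _ := by ring
  calc (K : ℝ≥0∞) * ENNReal.ofReal ((4 * (i + 1) * tau t) ^ δ)
        * l2 (shell t lam S i) (fun k => c k * beta t lam ξ k)
      ≤ (K : ℝ≥0∞) * ENNReal.ofReal (12 * (i + 1) * |t| ^ δ)
        * (ENNReal.ofReal (Real.exp (-(1 / 2 * i))) * WS t lam S c ^ (1 / 2 : ℝ)) := by
        gcongr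
        exact l2_shell t lam ξ S c i
    _ = _ := by
        rw [ENNReal.ofReal_mul (by positivity : (0:ℝ) ≤ 12 * ((i : ℝ) + 1)),
          ← mul_assoc (12 : ℝ) ((i : ℝ) + 1),
          ENNReal.ofReal_mul (by positivity : (0:ℝ) ≤ 12 * ((i : ℝ) + 1))]
        ring

theorem sum_bd : ∃ C : ℝ, 1 ≤ C ∧ ∀ n : ℕ,
    ∑ i ∈ Finset.range n, 12 * (((i : ℝ) + 1) * Real.exp (-(1 / 2 * i))) ≤ C := by
  have h1 := Real.summable_pow_mul_exp_neg_nat_mul 1 (by norm_num : (0 : ℝ) < 1 / 2)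
  have h0 := Real.summable_pow_mul_exp_neg_nat_mul 0 (by norm_num : (0 : ℝ) < 1 / 2)
  have h2 := (h1.add h0).mul_left 12
  have h3 : Summable fun i : ℕ => 12 * (((i : ℝ) + 1) * Real.exp (-(1 / 2 * i))) := by
    refine h2.congr fun i => ?_
    simp only [pow_one, pow_zero, one_mul]
    rw [neg_mul]
    ring
  refine ⟨max 1 (∑' i : ℕ, 12 * (((i : ℝ) + 1) * Real.exp (-(1 / 2 * i)))), le_max_left _ _,
    fun n => le_trans ?_ (le_max_right _ _)⟩
  exact h3.sum_le_tsum _ fun i _ => by positivity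

theorem window {m : ℕ} (t : ℝ) (ht : 1 ≤ |t|) (F : (Fin m → ℝ) → ℝ≥0∞) (hF : Measurable F) :
    ∫⁻ s in Set.pi univ (fun _ : Fin m => Ico (0 : ℝ) (tau t)),
      F (fun j => -(2 * t / tau t ^ 2) * s j)
      ≤ ENNReal.ofReal ((5 / 2 * |t|) ^ m) * ∫⁻ v in CB m, F v := by
  have hτ := tau_pos t
  have ht0 : t ≠ 0 := by
    rintro rfl
    norm_num at ht
  have hr : -(2 * t / tau t ^ 2) ≠ 0 := by
    have : 2 * t / tau t ^ 2 ≠ 0 := by positivity
    exact neg_ne_zero.2 this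
  have hbox : MeasurableSet (Set.pi univ (fun _ : Fin m => Ico (0 : ℝ) (tau t))) :=
    MeasurableSet.univ_pi fun _ => measurableSet_Ico
  have hCB : MeasurableSet (CB m) := MeasurableSet.univ_pi fun _ => measurableSet_Ico
  have hind : Measurable ((CB m).indicator F) := hF.indicator hCB
  have h1 : ∫⁻ s in Set.pi univ (fun _ : Fin m => Ico (0 : ℝ) (tau t)),
      F (fun j => -(2 * t / tau t ^ 2) * s j)
      ≤ ∫⁻ s : Fin m → ℝ, (CB m).indicator F (-(2 * t / tau t ^ 2) • s) := by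
    rw [← lintegral_indicator hbox]
    refine lintegral_mono fun s => ?_
    by_cases hs : s ∈ Set.pi univ (fun _ : Fin m => Ico (0 : ℝ) (tau t))
    · rw [indicator_of_mem hs]
      have hmem : -(2 * t / tau t ^ 2) • s ∈ CB m := by
        intro j _
        have hsj := hs j (mem_univ j)
        have habs : |-(2 * t / tau t ^ 2) * s j| < 1 := by
          rw [abs_mul, abs_neg, abs_div, abs_mul, abs_of_pos (by norm_num : (0:ℝ) < 2),
            abs_of_pos (by positivity : 0 < tau t ^ 2), abs_of_nonneg hsj.1,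
            div_mul_eq_mul_div, div_lt_one (by positivity)]
          have h2 := tau_ge t
          have h3 : 0 < 2 * |t| := by linarith
          calc 2 * |t| * s j ≤ 2 * |t| * tau t := by
                have := hsj.2.le
                gcongr
            _ < tau t * tau t := by gcongr
            _ = tau t ^ 2 := by ring
        rw [abs_lt] at habs
        simp only [Pi.smul_apply, smul_eq_mul]
        exact ⟨habs.1.le, habs.2⟩
      rw [indicator_of_mem hmem]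
      rfl
    · rw [indicator_of_notMem hs]
      exact zero_le
  refine h1.trans ?_
  have h2 : ∫⁻ s : Fin m → ℝ, (CB m).indicator F (-(2 * t / tau t ^ 2) • s)
      = ∫⁻ v, (CB m).indicator F v
        ∂(Measure.map (fun s : Fin m → ℝ => -(2 * t / tau t ^ 2) • s) volume) :=
    (lintegral_map hind (measurable_const_smul _)).symm
  rw [h2]
  have h3 := Measure.map_addHaar_smul (volume : Measure (Fin m → ℝ)) hr
  have h3' : Measure.map (fun s : Fin m → ℝ => -(2 * t / tau t ^ 2) • s) volume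
      = ENNReal.ofReal |((-(2 * t / tau t ^ 2)) ^ Module.finrank ℝ (Fin m → ℝ))⁻¹|
        • (volume : Measure (Fin m → ℝ)) := h3
  rw [h3', lintegral_smul_measure, lintegral_indicator hCB, Module.finrank_fin_fun, smul_eq_mul]
  gcongr
  rw [abs_inv, abs_pow, abs_neg, ← inv_pow]
  refine pow_le_pow_left₀ (by positivity) ?_ m
  rw [abs_div, abs_mul, abs_of_pos (by norm_num : (0:ℝ) < 2),
    abs_of_pos (by positivity : 0 < tau t ^ 2), inv_div, tau_sq, ← sq_abs,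
    div_le_iff₀ (by positivity)]
  nlinarith

theorem mink {m : ℕ} (q : ℝ) (hq : 1 ≤ q) (n : ℕ) (f : ℕ → (Fin m → ℝ) → ℂ)
    (hf : ∀ i, Continuous (f i)) :
    (∫⁻ v in CB m, ‖(∑ i ∈ Finset.range n, f i) v‖ₑ ^ q) ^ (1 / q)
      ≤ ∑ i ∈ Finset.range n, (∫⁻ v in CB m, ‖f i v‖ₑ ^ q) ^ (1 / q) := by
  have hq0 : 0 < q := by linarith
  have hp0 : ENNReal.ofReal q ≠ 0 := by simpa using hq0
  have hpt : ENNReal.ofReal q ≠ ⊤ := ENNReal.ofReal_ne_top
  have hto : (ENNReal.ofReal q).toReal = q := ENNReal.toReal_ofReal hq0.le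
  have e : ∀ g : (Fin m → ℝ) → ℂ, eLpNorm g (ENNReal.ofReal q) (volume.restrict (CB m))
      = (∫⁻ v in CB m, ‖g v‖ₑ ^ q) ^ (1 / q) := by
    intro g
    rw [eLpNorm_eq_lintegral_rpow_enorm_toReal hp0 hpt, hto]
  have h := eLpNorm_sum_le (μ := volume.restrict (CB m)) (s := Finset.range n) (f := f)
    (p := ENNReal.ofReal q) (fun i _ => (hf i).aestronglyMeasurable)
    (by rw [← ENNReal.ofReal_one]; exact ENNReal.ofReal_le_ofReal hq)
  rw [e] at h
  simpa only [e] using h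

theorem gau3 : Gau3Stm := by
  intro m q δ hq hδ hδ1
  obtain ⟨C1, hC1, hC1s⟩ := sum_bd
  refine ⟨Real.toNNReal (C1 * (5 / 2) ^ m), ?_⟩
  intro Λ K hL t ht S c hS lam ξ
  have hq0 : 0 < q := by linarith
  have hq1 : 1 ≤ q := by linarith
  set P : (Fin m → ℝ) → ℂ := trig S (fun k => c k * beta t lam ξ k) with hP
  have hPc : Continuous P := trig_cont _ _
  have h1 := window t ht (fun v => ‖P v‖ₑ ^ q)
    ((hPc.measurable.enorm).pow_const q)
  refine h1.trans ?_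
  obtain ⟨n, hn⟩ : ∃ n : ℕ, ∀ k ∈ S, idx t lam k < n := by
    refine ⟨S.sup (idx t lam) + 1, fun k hk => Nat.lt_succ_of_le (Finset.le_sup hk)⟩
  have h2 : (∫⁻ v in CB m, ‖P v‖ₑ ^ q) ^ (1 / q)
      ≤ ENNReal.ofReal C1 * (K * ENNReal.ofReal (|t| ^ δ) * WS t lam S c ^ (1 / 2 : ℝ)) := by
    rw [hP, trig_shells t lam S _ n hn]
    refine (mink q hq1 n _ fun i => trig_cont _ _).trans ?_
    refine (Finset.sum_le_sum fun i _ =>
      shell_est q δ hq hδ hδ1 Λ K hL t ht S c hS lam ξ i).trans ?_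
    rw [← Finset.sum_mul]
    gcongr
    rw [← ENNReal.ofReal_sum_of_nonneg fun i _ => by positivity]
    exact ENNReal.ofReal_le_ofReal (hC1s n)
  have h3 : ∫⁻ v in CB m, ‖P v‖ₑ ^ q
      ≤ (ENNReal.ofReal C1 * (K * ENNReal.ofReal (|t| ^ δ) * WS t lam S c ^ (1 / 2 : ℝ))) ^ q := by
    have := ENNReal.rpow_le_rpow h2 hq0.le
    rwa [← ENNReal.rpow_mul, one_div_mul_cancel hq0.ne', ENNReal.rpow_one] at this
  have h4 : ENNReal.ofReal ((5 / 2 * |t|) ^ m)
      ≤ ENNReal.ofReal (|t| ^ m) * ENNReal.ofReal ((5 / 2 : ℝ) ^ m) ^ q := by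
    rw [mul_pow, mul_comm, ENNReal.ofReal_mul (by positivity)]
    gcongr
    have h5 : (1 : ℝ≥0∞) ≤ ENNReal.ofReal ((5 / 2 : ℝ) ^ m) := by
      rw [← ENNReal.ofReal_one]
      exact ENNReal.ofReal_le_ofReal (one_le_pow₀ (by norm_num))
    calc ENNReal.ofReal ((5 / 2 : ℝ) ^ m) = ENNReal.ofReal ((5 / 2 : ℝ) ^ m) ^ (1 : ℝ) := by
          rw [ENNReal.rpow_one]
      _ ≤ _ := ENNReal.rpow_le_rpow_of_exponent_le h5 hq1
  have e : (∑ k ∈ S, ‖c k‖ₑ ^ 2 * ENNReal.ofReal (ww t lam k)) ^ (q / 2)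
      = (WS t lam S c ^ (1 / 2 : ℝ)) ^ q := by
    rw [← ENNReal.rpow_mul]
    unfold WS
    congr 1
    ring
  rw [e]
  have eC : ((Real.toNNReal (C1 * (5 / 2) ^ m) : ℝ≥0) : ℝ≥0∞)
      = ENNReal.ofReal C1 * ENNReal.ofReal ((5 / 2 : ℝ) ^ m) := by
    rw [← ENNReal.ofReal_mul (by linarith)]
    rfl
  rw [eC]
  calc ENNReal.ofReal ((5 / 2 * |t|) ^ m) * ∫⁻ v in CB m, ‖P v‖ₑ ^ q
      ≤ (ENNReal.ofReal (|t| ^ m) * ENNReal.ofReal ((5 / 2 : ℝ) ^ m) ^ q)
        * (ENNReal.ofReal C1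
          * (K * ENNReal.ofReal (|t| ^ δ) * WS t lam S c ^ (1 / 2 : ℝ))) ^ q := by
        gcongr
    _ = _ := by
        simp only [ENNReal.mul_rpow_of_nonneg _ _ hq0.le]
        ring

end Pool.Agent.W191.LS
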